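import Pool.Agent.H533R2.OG.Defs

set_option autoImplicit false

/-! Homogeneity of countable dense linear orders without endpoints (helper540). -/

namespace Pool.Agent.H533R2.OG

/-- DENSE -/
theorem dense_hom {B : Type} [LinearOrder B] [Countable B] [Nonempty B] [DenselyOrdered B]
    [NoMinOrder B] [NoMaxOrder B] {k : ℕ} (s t : Fin k → B) (h : ∀ p q, s p < s q ↔ t p < t q) :
    ∃ g : B ≃o B, ∀ p, g (s p) = t p := by
  classical
  cases nonempty_encodable B
  have hcmp : ∀ p q, cmp (s p) (s q) = cmp (t p) (t q) := by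
    intro p q
    rcases lt_trichotomy (s p) (s q) with hlt | heq | hgt
    · rw [(cmp_eq_lt_iff _ _).2 hlt, (cmp_eq_lt_iff _ _).2 ((h p q).1 hlt)]
    · have h1 : ¬ t p < t q := fun hh => by
        have := (h p q).2 hh; rw [heq] at this; exact lt_irrefl _ this
      have h2 : ¬ t q < t p := fun hh => by
        have := (h q p).2 hh; rw [heq] at this; exact lt_irrefl _ this
      have h3 : t p = t q := le_antisymm (not_lt.1 h2) (not_lt.1 h1)
      rw [heq, h3, cmp_self_eq_eq, cmp_self_eq_eq]
    · rw [(cmp_eq_gt_iff _ _).2 hgt, (cmp_eq_gt_iff _ _).2 ((h q p).1 hgt)]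
  let start : Order.PartialIso B B := ⟨Finset.univ.image (fun p => (s p, t p)), by
    intro x hx y hy
    rw [Finset.mem_image] at hx hy
    obtain ⟨p, -, rfl⟩ := hx
    obtain ⟨q, -, rfl⟩ := hy
    exact hcmp p q⟩
  let to_cofinal : B ⊕ B → Order.Cofinal (Order.PartialIso B B) := fun p ↦
    Sum.recOn p (Order.PartialIso.definedAtLeft B) (Order.PartialIso.definedAtRight B)
  let our_ideal : Order.Ideal (Order.PartialIso B B) := Order.idealOfCofinals start to_cofinal
  have hstart : start ∈ our_ideal := Order.mem_idealOfCofinals _ _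
  let F a := Order.PartialIso.funOfIdeal a our_ideal
    (Order.cofinal_meets_idealOfCofinals _ to_cofinal (Sum.inl a))
  let G b := Order.PartialIso.invOfIdeal b our_ideal
    (Order.cofinal_meets_idealOfCofinals _ to_cofinal (Sum.inr b))
  refine ⟨OrderIso.ofCmpEqCmp (fun a ↦ (F a).val) (fun b ↦ (G b).val) fun a b ↦ by
      rcases (F a).prop with ⟨f, hf, ha⟩
      rcases (G b).prop with ⟨g, hg, hb⟩
      rcases our_ideal.directed _ hf _ hg with ⟨m, _, fm, gm⟩
      exact m.prop (a, _) (fm ha) (_, b) (gm hb), ?_⟩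
  intro p
  change (F (s p)).val = t p
  rcases (F (s p)).prop with ⟨f, hf, ha⟩
  rcases our_ideal.directed _ hf _ hstart with ⟨m, _, fm, gm⟩
  have h1 : (s p, t p) ∈ m.val := gm (Finset.mem_image.2 ⟨p, Finset.mem_univ _, rfl⟩)
  have h2 := m.prop _ (fm ha) _ h1
  simp only [cmp_self_eq_eq] at h2
  exact (cmp_eq_eq_iff _ _).1 h2.symm

end Pool.Agent.H533R2.OG
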