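import Mathlib

set_option autoImplicit false

/-!
# No Polish topology on the codes of `ζ^α` and `ζ^α · η` (MP_09f6a2_lc): definitions

`A = ℕ →₀ ℤ` is the underlying set of all `ζ^α` with `α` infinite and countable; the levels are the
natural numbers, ordered by `r : ℕ → ℕ → Bool`.  `V = A × Bool` consists of two copies.
-/

namespace Pool.Agent.H533R2.OG

/-- Finitely supported integer sequences. -/
abbrev A : Type := ℕ →₀ ℤ

/-- Two copies of `A`. -/
abbrev V : Type := A × Bool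

/-- `r` is a strict linear order of `ℕ`. -/
def SLO (r : ℕ → ℕ → Bool) : Prop :=
  (∀ m, r m m = false) ∧ (∀ l m n, r l m = true → r m n = true → r l n = true) ∧
    (∀ m n, m ≠ n → r m n = true ∨ r n m = true)

/-- There is an infinite `r`-descending sequence. -/
def Desc (r : ℕ → ℕ → Bool) : Prop := ∃ s : ℕ → ℕ, ∀ n, r (s (n + 1)) (s n) = true

/-- `ν` is the `r`-largest element of the support of `a`. -/
def Top (r : ℕ → ℕ → Bool) (a : A) (ν : ℕ) : Prop :=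
  a ν ≠ 0 ∧ ∀ κ, a κ ≠ 0 → κ = ν ∨ r κ ν = true

/-- Signs. -/
def sg (b : Bool) : ℤ := if b then 1 else -1

/-- The positive elements of the lexicographic order with signs `ε`. -/
def Pos (r : ℕ → ℕ → Bool) (ε : ℕ → Bool) (a : A) : Prop := ∃ ν, Top r a ν ∧ 0 < sg (ε ν) * a ν

/-- The lexicographic order on two copies. -/
def Lt (r : ℕ → ℕ → Bool) (ε : ℕ → Bool) (v w : V) : Prop :=
  (v.2 = false ∧ w.2 = true) ∨ (v.2 = w.2 ∧ Pos r ε (w.1 - v.1))

/-- The pairs `(v, w)` and `(v', w')` have the same top level and top coefficient. -/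
def ExA (r : ℕ → ℕ → Bool) (v w v' w' : A) : Prop :=
  (v = w ∧ v' = w') ∨
    ∃ ν, Top r (w - v) ν ∧ Top r (w' - v') ν ∧ (w - v) ν = (w' - v') ν

/-- Bijections of `A` preserving top levels and top coefficients of all differences. -/
def W (r : ℕ → ℕ → Bool) (g : A ≃ A) : Prop := ∀ v w, ExA r v w (g v) (g w)

/-- Close pairs: same copies, and the same top level `ν < μ` and the same top coefficient. -/
def Ex (r : ℕ → ℕ → Bool) (μ : ℕ) (v w v' w' : V) : Prop :=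
  v.2 = w.2 ∧ v'.2 = w'.2 ∧ ((v.1 = w.1 ∧ v'.1 = w'.1) ∨
    ∃ ν, r ν μ = true ∧ Top r (w.1 - v.1) ν ∧ Top r (w'.1 - v'.1) ν ∧
      (w.1 - v.1) ν = (w'.1 - v'.1) ν)

/-- Far pairs: different copies, or top level not `< μ`. -/
def Far (r : ℕ → ℕ → Bool) (μ : ℕ) (v w : V) : Prop :=
  v.2 ≠ w.2 ∨ ∃ ν, r ν μ = false ∧ Top r (w.1 - v.1) ν

/-- The two pairs look the same at level `μ`. -/
def Eqv (r : ℕ → ℕ → Bool) (ε : ℕ → Bool) (μ : ℕ) (v w v' w' : V) : Prop :=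
  Ex r μ v w v' w' ∨ (Far r μ v w ∧ Far r μ v' w' ∧ (Lt r ε v w ↔ Lt r ε v' w'))

/-- Structures on `ℕ` with relations of arities `ar i`. -/
abbrev RS (ar : ℕ → ℕ) : Type := (i : ℕ) → (Fin (ar i) → ℕ) → Bool

/-- `N` (with coordinates `e : ℕ ≃ A`) depends only on top levels and top coefficients. -/
def Inv {ar : ℕ → ℕ} (r : ℕ → ℕ → Bool) (e : ℕ ≃ A) (N : RS ar) : Prop :=
  ∀ (i : ℕ) (s t : Fin (ar i) → ℕ), (∀ p q, ExA r (e (s p)) (e (s q)) (e (t p)) (e (t q))) →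
    N i s = N i t

/-- `N` is trivial above level `μ`: its relations depend only on `Eqv r ε μ`. -/
def Triv {ar : ℕ → ℕ} (r : ℕ → ℕ → Bool) (ε : ℕ → Bool) (μ : ℕ) (e : ℕ ≃ A) (N : RS ar) : Prop :=
  ∀ (i : ℕ) (s t : Fin (ar i) → ℕ),
    (∀ p q, Eqv r ε μ (e (s p), false) (e (s q), false) (e (t p), false) (e (t q), false)) →
    N i s = N i t

open Classical in
/-- The doubled structure, with coordinates `e' : ℕ ≃ V`. -/
noncomputable def dbl {ar : ℕ → ℕ} (r : ℕ → ℕ → Bool) (ε : ℕ → Bool) (μ : ℕ) (e : ℕ ≃ A)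
    (e' : ℕ ≃ V) (N : RS ar) : RS ar := fun i t =>
  decide (∃ s : Fin (ar i) → ℕ,
    (∀ p q, Eqv r ε μ (e (s p), false) (e (s q), false) (e' (t p)) (e' (t q))) ∧ N i s = true)

/-- The exceptional set. -/
def Uset {ar : ℕ → ℕ} (e : ℕ ≃ A) (S : Set (RS ar)) : Set ((ℕ → ℕ → Bool) × RS ar) :=
  {P | SLO P.1 ∧ Inv P.1 e P.2 ∧ P.2 ∈ S ∧ ∀ μ, ¬ ∃ ε, Triv P.1 ε μ e P.2}

/-- `n` has `r`-rank at least `β`. -/
def Rk (r : ℕ → ℕ → Bool) (β : Ordinal.{0}) (n : ℕ) : Prop :=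
  ∀ β' : Ordinal.{0}, ∀ _h : β' < β, ∃ m, r m n = true ∧ Rk r β' m
termination_by β
decreasing_by exact _h

/-- Codes (as in the frozen statement) of the orders `ζ^α` and `ζ^α · η`. -/
def Mset : Set (ℕ × ℕ → Bool) := {x : (ℕ × ℕ → Bool) | ∃ α : Ordinal.{0}, Ordinal.card α ≤ Cardinal.aleph0 ∧
        ((∃ e : ℕ ≃ Subtype (fun f : (Ordinal.{0} → ℤ) =>
              (∀ β : Ordinal.{0}, f β ≠ 0 → β < α) ∧ (Function.support f).Finite),
            ∀ m n : ℕ, x (m, n) = true ↔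
              (e m = e n ∨ ∃ β : Ordinal.{0}, (e m).1 β < (e n).1 β ∧
                ∀ γ : Ordinal.{0}, β < γ → (e m).1 γ = (e n).1 γ)) ∨
         (∃ e : ℕ ≃ ℚ × Subtype (fun f : (Ordinal.{0} → ℤ) =>
              (∀ β : Ordinal.{0}, f β ≠ 0 → β < α) ∧ (Function.support f).Finite),
            ∀ m n : ℕ, x (m, n) = true ↔
              (e m = e n ∨ (e m).1 < (e n).1 ∨
                ((e m).1 = (e n).1 ∧
                  ∃ β : Ordinal.{0}, (e m).2.1 β < (e n).2.1 β ∧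
                    ∀ γ : Ordinal.{0}, β < γ → (e m).2.1 γ = (e n).2.1 γ))))}

end Pool.Agent.H533R2.OG
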