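import Pool.Agent.H533R2.OG.Defs
import Pool.Agent.H899R2.VP.Bnd


set_option autoImplicit false

/-! Stubs (statements only). -/

namespace Pool.Agent.H533R2.OG

open Set MeasureTheory
open Pool.Agent.H899R2.VP (BF)

/-- CODE -/
theorem code_exists {X : Type} [TopologicalSpace X] [PolishSpace X] [MeasurableSpace X]
    [BorelSpace X] (act : Equiv.Perm ℕ → X → X) (h1 : ∀ x, act 1 x = x)
    (hmul : ∀ g h x, act (g * h) x = act g (act h x))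
    (hcont : @Continuous (Equiv.Perm ℕ × X) X
      (@instTopologicalSpaceProd (Equiv.Perm ℕ) X
        (TopologicalSpace.induced (fun g : Equiv.Perm ℕ => (⇑g : ℕ → ℕ)) inferInstance) _)
      _ (fun p => act p.1 p.2)) :
    ∃ (ar : ℕ → ℕ) (N : X → RS ar), Measurable N ∧ Function.Injective N ∧
      ∀ (g : Equiv.Perm ℕ) (x : X) (i : ℕ) (v : Fin (ar i) → ℕ),
        N (act g x) i (⇑g ∘ v) = N x i v := sorry

/-- CLOSED -/
theorem closed_code {X : Type} [TopologicalSpace X] [PolishSpace X] [MeasurableSpace X]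
    [BorelSpace X] (ar : ℕ → ℕ) (N : X → RS ar) (hm : Measurable N) (hi : Function.Injective N)
    (hinv : ∀ (x : X) (σ : Equiv.Perm ℕ), ∃ y, ∀ (i : ℕ) (v : Fin (ar i) → ℕ),
      N y i (⇑σ ∘ v) = N x i v) :
    MeasurableSet (range N) ∧ ∃ γ : Ordinal.{0}, γ < Ordinal.omega 1 ∧ ∀ (x : X) (N' : RS ar),
      BF ((fun _ _ => false), N x) ((fun _ _ => false), N') univ univ γ ∅ → ∃ y, N y = N' := sorry

/-- HOM -/
theorem hom {r : ℕ → ℕ → Bool} (hr : SLO r) {k : ℕ} (s t : Fin k → A)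
    (h : ∀ p q, ExA r (s p) (s q) (t p) (t q)) : ∃ g : A ≃ A, W r g ∧ ∀ p, g (s p) = t p := sorry

/-- SIGN -/
theorem sign {r : ℕ → ℕ → Bool} (hr : SLO r) (L : A → A → Prop) (hirr : ∀ a, ¬ L a a)
    (htr : ∀ a b c, L a b → L b c → L a c) (htot : ∀ a b, a ≠ b → L a b ∨ L b a)
    (hW : ∀ g, W r g → ∀ a b, L a b → L (g a) (g b)) :
    ∃ ε : ℕ → Bool, ∀ a b, L a b ↔ Pos r ε (b - a) := sorry

/-- DENSE -/
theorem dense_hom {B : Type} [LinearOrder B] [Countable B] [Nonempty B] [DenselyOrdered B]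
    [NoMinOrder B] [NoMaxOrder B] {k : ℕ} (s t : Fin k → B) (h : ∀ p q, s p < s q ↔ t p < t q) :
    ∃ g : B ≃o B, ∀ p, g (s p) = t p := sorry

/-- ILL -/
theorem ill {r : ℕ → ℕ → Bool} (hr : SLO r) (hd : Desc r) (ε : ℕ → Bool) {ar : ℕ → ℕ}
    (e : ℕ ≃ A) (N : RS ar)
    (hN : ∀ σ : Equiv.Perm ℕ, (∀ m n, Pos r ε (e n - e m) → Pos r ε (e (σ n) - e (σ m))) →
      ∀ (i : ℕ) (v : Fin (ar i) → ℕ), N i (⇑σ ∘ v) = N i v) :
    ∃ μ, Triv r ε μ e N := sorry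

/-- BOR -/
theorem meas_U {ar : ℕ → ℕ} (e : ℕ ≃ A) (S : Set (RS ar)) (hS : MeasurableSet S) :
    MeasurableSet (Uset e S) := sorry

/-- WFB -/
theorem wf_bounding (f : (ℕ → ℕ) → (ℕ → ℕ → Bool)) (hf : Continuous f)
    (h : ∀ β : Ordinal.{0}, β < Ordinal.omega 1 → ∃ z n, Rk (f z) β n) : ∃ z, Desc (f z) := sorry

/-- ORD -/
theorem exists_order (δ γ : Ordinal.{0}) (hδ : δ < Ordinal.omega 1) (hγ : γ < Ordinal.omega 1) :
    ∃ r : ℕ → ℕ → Bool, SLO r ∧ WellFounded (fun m n => r m n = true) ∧ (∃ n, Rk r δ n) ∧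
      ∀ i, ∃ l : Ordinal.{0} → ℕ, l 0 = i ∧
        ∀ o o' : Ordinal.{0}, o < o' → o' < γ → r (l o) (l o') = true := sorry

/-- EXT -/
theorem ext_step {r : ℕ → ℕ → Bool} (hr : SLO r) (ε : ℕ → Bool) {l l' : ℕ} (hl : r l' l = true)
    (p : Set (V × V)) (hp : p.Finite) (hpe : ∀ u ∈ p, ∀ v ∈ p, Eqv r ε l u.1 v.1 u.2 v.2)
    (x : V) : ∃ y : V, (y.2 = false ∨ ∃ u ∈ p, y.2 = u.2.2) ∧
      ∀ u ∈ insert (x, y) p, ∀ v ∈ insert (x, y) p, Eqv r ε l' u.1 v.1 u.2 v.2 := sorry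

/-- BFE -/
theorem bf_double {r : ℕ → ℕ → Bool} (hr : SLO r) (ε : ℕ → Bool) {ar : ℕ → ℕ} (e : ℕ ≃ A)
    (e' : ℕ ≃ V) (N : RS ar) (μ : ℕ) (hT : Triv r ε μ e N) (γ : Ordinal.{0})
    (l : Ordinal.{0} → ℕ) (h0 : l 0 = μ)
    (hl : ∀ o o' : Ordinal.{0}, o < o' → o' < γ → r (l o) (l o') = true) :
    BF ((fun _ _ => false), N) ((fun _ _ => false), dbl r ε μ e e' N) univ univ γ ∅ := sorry

/-- INVD -/
theorem dbl_inv {r : ℕ → ℕ → Bool} (hr : SLO r) (ε : ℕ → Bool) {ar : ℕ → ℕ} (e : ℕ ≃ A)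
    (e' : ℕ ≃ V) (N : RS ar) (μ : ℕ) (g : Bool → (A ≃ A)) (hg : ∀ j, W r (g j))
    (i : ℕ) (t : Fin (ar i) → ℕ) :
    dbl r ε μ e e' N i (fun p => e'.symm (g (e' (t p)).2 (e' (t p)).1, (e' (t p)).2)) =
      dbl r ε μ e e' N i t := sorry

/-- RIGID -/
theorem half_pres {r : ℕ → ℕ → Bool} (hr : SLO r) (hwf : WellFounded (fun m n => r m n = true))
    (g : V ≃ V) (hg : ∀ x y, Lt r (fun _ => true) x y ↔ Lt r (fun _ => true) (g x) (g y)) :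
    ∀ x, (g x).2 = x.2 := sorry

/-- NOTR -/
theorem no_trans {r : ℕ → ℕ → Bool} (hr : SLO r) (hwf : WellFounded (fun m n => r m n = true))
    (L : V → V → Prop) (hirr : ∀ a, ¬ L a a) (htr : ∀ a b c, L a b → L b c → L a c)
    (htot : ∀ a b, a ≠ b → L a b ∨ L b a)
    (hW : ∀ g : Bool → (A ≃ A), (∀ j, W r (g j)) → ∀ a b : V, L a b →
      L (g a.2 a.1, a.2) (g b.2 b.1, b.2)) :
    ∃ v w : V, ∀ g : V ≃ V, (∀ x y, L x y ↔ L (g x) (g y)) → g v ≠ w := sorry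

/-- MF1 -/
theorem code_mem {r : ℕ → ℕ → Bool} (hr : SLO r) (hwf : WellFounded (fun m n => r m n = true))
    (e : ℕ ≃ A) (x : ℕ × ℕ → Bool)
    (hx : ∀ m n, x (m, n) = true ↔ (e m = e n ∨ Pos r (fun _ => true) (e n - e m))) :
    x ∈ Mset := sorry

/-- MF2 -/
theorem code_facts (x : ℕ × ℕ → Bool) (hx : x ∈ Mset) :
    (∀ m, x (m, m) = true) ∧ (∀ l m n, x (l, m) = true → x (m, n) = true → x (l, n) = true) ∧
    (∀ m n, x (m, n) = true → x (n, m) = true → m = n) ∧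
    (∀ m n, x (m, n) = true ∨ x (n, m) = true) ∧
    (∀ m n, ∃ σ : Equiv.Perm ℕ, σ m = n ∧ ∀ p q, x (σ p, σ q) = x (p, q)) := sorry

end Pool.Agent.H533R2.OG
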