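import Pool.Agent.H533R2.OG.Defs
import Pool.Agent.H899R2.VP.Bnd

set_option autoImplicit false

/-! Boundedness for well-founded ranks (helper540). -/

namespace Pool.Agent.H533R2.OG

open Set

theorem Rk.down {r : ℕ → ℕ → Bool} {β : Ordinal.{0}} {n : ℕ} (h : Rk r β n) {β' : Ordinal.{0}}
    (hb : β' < β) : ∃ m, r m n = true ∧ Rk r β' m := by
  rw [Rk] at h
  exact h β' hb

theorem Rk.mono {r : ℕ → ℕ → Bool} {β γ : Ordinal.{0}} {n : ℕ} (h : Rk r β n) (hg : γ ≤ β) :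
    Rk r γ n := by
  rw [Rk]
  intro β' hb
  exact h.down (lt_of_lt_of_le hb hg)

/-- invariant of the construction: `q` is the finite set of relations to be kept -/
def WInv (f : (ℕ → ℕ) → (ℕ → ℕ → Bool)) (n : ℕ) (s : ℕ → ℕ) (m : ℕ) (q : Set (ℕ × ℕ)) : Prop :=
  ∀ β : Ordinal.{0}, β < Ordinal.omega 1 → ∃ z : ℕ → ℕ, (∀ i < n, z i = s i) ∧
    Rk (f z) β m ∧ ∀ u ∈ q, f z u.1 u.2 = true

theorem WInv.step {f : (ℕ → ℕ) → (ℕ → ℕ → Bool)} {n : ℕ} {s : ℕ → ℕ} {m : ℕ} {q : Set (ℕ × ℕ)}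
    (h : WInv f n s m q) : ∃ k m' : ℕ,
      WInv f (n + 1) (Function.update s n k) m' (insert (m', m) q) := by
  obtain ⟨⟨k, m'⟩, hk⟩ := Pool.Agent.H899R2.VP.pigeon (κ := ℕ × ℕ)
    (fun β κ => ∃ z : ℕ → ℕ, (∀ i < n, z i = s i) ∧ z n = κ.1 ∧ Rk (f z) β κ.2 ∧
      ∀ u ∈ insert (κ.2, m) q, f z u.1 u.2 = true)
    (by
      rintro β γ κ hγ ⟨z, h1, h2, h3, h4⟩
      exact ⟨z, h1, h2, h3.mono hγ, h4⟩)
    (by
      intro β hβ
      have hs : β + 1 < Ordinal.omega 1 :=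
        (Cardinal.isSuccLimit_omega 1).add_one_lt hβ
      obtain ⟨z, hz1, hz2, hz3⟩ := h _ hs
      obtain ⟨m', hm1, hm2⟩ := hz2.down (lt_add_one β)
      refine ⟨(z n, m'), z, hz1, rfl, hm2, ?_⟩
      intro u hu
      rcases hu with rfl | hu
      · exact hm1
      · exact hz3 u hu)
  refine ⟨k, m', fun β hβ => ?_⟩
  obtain ⟨z, h1, h2, h3, h4⟩ := hk β hβ
  refine ⟨z, fun i hi => ?_, h3, h4⟩
  rcases Nat.lt_succ_iff_lt_or_eq.1 hi with hi | rfl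
  · rw [Function.update_of_ne hi.ne]; exact h1 i hi
  · rw [Function.update_self]; exact h2

/-- WFB -/
theorem wf_bounding (f : (ℕ → ℕ) → (ℕ → ℕ → Bool)) (hf : Continuous f)
    (h : ∀ β : Ordinal.{0}, β < Ordinal.omega 1 → ∃ z n, Rk (f z) β n) : ∃ z, Desc (f z) := by
  classical
  obtain ⟨m0, hm0⟩ := Pool.Agent.H899R2.VP.pigeon (κ := ℕ)
    (fun β κ => ∃ z : ℕ → ℕ, Rk (f z) β κ)
    (by
      rintro β γ κ hγ ⟨z, h1⟩
      exact ⟨z, h1.mono hγ⟩)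
    (by
      intro β hβ
      obtain ⟨z, n, hz⟩ := h β hβ
      exact ⟨n, z, hz⟩)
  have h0 : WInv f 0 (fun _ => 0) m0 ∅ := by
    intro β hβ
    obtain ⟨z, hz⟩ := hm0 β hβ
    exact ⟨z, fun i hi => absurd hi (Nat.not_lt_zero i), hz, fun u hu => hu.elim⟩
  -- the sequence of states
  obtain ⟨S, hS⟩ : ∃ S : ℕ → (ℕ → ℕ) × ℕ × Set (ℕ × ℕ),
      ∀ n, WInv f n (S n).1 (S n).2.1 (S n).2.2 ∧ ∃ k m' : ℕ, S (n + 1) =
        (Function.update (S n).1 n k, m', insert (m', (S n).2.1) (S n).2.2) := by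
    have hst : ∀ n (σ : {σ : (ℕ → ℕ) × ℕ × Set (ℕ × ℕ) // WInv f n σ.1 σ.2.1 σ.2.2}),
        ∃ τ : {σ : (ℕ → ℕ) × ℕ × Set (ℕ × ℕ) // WInv f (n + 1) σ.1 σ.2.1 σ.2.2}, ∃ k m' : ℕ,
          τ.1 = (Function.update σ.1.1 n k, m', insert (m', σ.1.2.1) σ.1.2.2) := by
      rintro n ⟨σ, hσ⟩
      obtain ⟨k, m', hh⟩ := hσ.step
      exact ⟨⟨_, hh⟩, k, m', rfl⟩
    choose F hF using hst
    let G : ∀ n, {σ : (ℕ → ℕ) × ℕ × Set (ℕ × ℕ) // WInv f n σ.1 σ.2.1 σ.2.2} :=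
      fun n => Nat.rec ⟨(fun _ => 0, m0, ∅), h0⟩ (fun n σ => F n σ) n
    exact ⟨fun n => (G n).1, fun n => ⟨(G n).2, hF n (G n)⟩⟩
  choose hinv k m' hstep using hS
  set z : ℕ → ℕ := fun i => (S (i + 1)).1 i with hz
  have hmono : ∀ n, (S n).2.2 ⊆ (S (n + 1)).2.2 := by
    intro n
    rw [hstep n]
    exact subset_insert _ _
  have hmono' : Monotone fun n => (S n).2.2 := monotone_nat_of_le_succ hmono
  have hpre : ∀ n, ∀ i < n, (S n).1 i = z i := by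
    intro n
    induction n with
    | zero => intro i hi; exact absurd hi (Nat.not_lt_zero i)
    | succ n ih =>
      intro i hi
      rcases Nat.lt_succ_iff_lt_or_eq.1 hi with hi | rfl
      · rw [hstep n]
        simp only [Function.update_of_ne hi.ne]
        exact ih i hi
      · rfl
  refine ⟨z, fun n => (S n).2.1, fun n => ?_⟩
  have hmem : ((S (n + 1)).2.1, (S n).2.1) ∈ (S (n + 1)).2.2 := by
    rw [hstep n]
    exact mem_insert _ _
  have hzm : ∀ m, ∃ w : ℕ → ℕ, (∀ i < m, w i = z i) ∧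
      (n + 1 ≤ m → f w (S (n + 1)).2.1 (S n).2.1 = true) := by
    intro m
    obtain ⟨w, hw1, -, hw3⟩ := hinv m 0 (Ordinal.omega_pos 1)
    exact ⟨w, fun i hi => (hw1 i hi).trans (hpre m i hi), fun hnm => hw3 _ (hmono' hnm hmem)⟩
  choose w hw1 hw2 using hzm
  have hlim : Filter.Tendsto w Filter.atTop (nhds z) := by
    rw [tendsto_pi_nhds]
    intro i
    apply tendsto_const_nhds.congr'
    filter_upwards [Filter.eventually_gt_atTop i] with m hm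
    exact (hw1 m i hm).symm
  have hcl : IsClosed {g : ℕ → ℕ → Bool | g (S (n + 1)).2.1 (S n).2.1 = true} :=
    isClosed_eq ((continuous_apply _).comp (continuous_apply _)) continuous_const
  have hlim2 := (hf.tendsto z).comp hlim
  exact hcl.mem_of_tendsto hlim2
    (by filter_upwards [Filter.eventually_ge_atTop (n + 1)] with m hm using hw2 m hm)

end Pool.Agent.H533R2.OG
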